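import Pool.Agent.X32.Uni.Lin

/-!
# A residue class for primes `q` with `(q - 1) / D` free of small prime factors (helper2)
-/

set_option autoImplicit false

namespace Pool.Agent.T6.H2.PR

open Finset
open Pool.Agent.X32.Uni

variable {K : ℕ}

/-- the local condition: for every prime `p` there is a unit `x` modulo `p`, compatible with `a` modulo `m`, such that
the `c l x + d l` are units, and `x - 1` is a unit unless `p = 2` or `p` divides `m` -/
def LocC (m a : ℕ) (c d : Fin K → ℤ) : Prop :=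
  ∀ p : ℕ, p.Prime → ∃ x : ℤ, (p ∣ m → (p : ℤ) ∣ x - a) ∧ ¬ (p : ℤ) ∣ x ∧
    (∀ l, ¬ (p : ℤ) ∣ c l * x + d l) ∧ (p ≠ 2 → ¬ p ∣ m → ¬ (p : ℤ) ∣ x - 1)

theorem two_adic (m a : ℕ) (hm : 0 < m) (ham : a.Coprime m) : ∃ a₁ : ℕ, a₁ ≡ a [MOD m] ∧ a₁.Coprime (4 * m) ∧
    ¬ ((2 ^ (4 * m).factorization 2 : ℕ) : ℤ) ∣ (a₁ : ℤ) - 1 := by
  obtain ⟨a₀, h1, h2⟩ : ∃ a₀ : ℕ, a₀ ≡ a [MOD m] ∧ a₀ % 2 = 1 := by
    rcases Nat.mod_two_eq_zero_or_one a with h | h
    · refine ⟨a + m, by simp [Nat.ModEq], ?_⟩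
      have h2a : 2 ∣ a := Nat.dvd_of_mod_eq_zero h
      have : ¬ 2 ∣ m := fun h3 => by
        have := Nat.dvd_gcd h2a h3
        rw [Nat.coprime_iff_gcd_eq_one.1 ham] at this
        omega
      omega
    · exact ⟨a, rfl, h⟩
  have hcop : ∀ a' : ℕ, a' ≡ a [MOD m] → a' % 2 = 1 → a'.Coprime (4 * m) := by
    intro a' h3 h4
    apply Nat.Coprime.mul_right
    · have : a'.Coprime 2 := by
        rw [Nat.coprime_comm]
        exact (Nat.Prime.coprime_iff_not_dvd Nat.prime_two).2 (by omega)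
      exact this.pow_right 2
    · have h5 := h3.gcd_eq
      rw [Nat.coprime_iff_gcd_eq_one, h5]
      exact ham
  by_cases h3 : ((2 ^ (4 * m).factorization 2 : ℕ) : ℤ) ∣ (a₀ : ℤ) - 1
  · refine ⟨a₀ + 2 * m, ?_, hcop _ ?_ (by omega), ?_⟩
    · have : a₀ + 2 * m ≡ a₀ [MOD m] := by simp [Nat.ModEq]
      exact this.trans h1
    · have : a₀ + 2 * m ≡ a₀ [MOD m] := by simp [Nat.ModEq]
      exact this.trans h1
    · intro h4
      have h5 := dvd_sub h4 h3
      have h6 : (((a₀ + 2 * m : ℕ) : ℤ) - 1) - ((a₀ : ℤ) - 1) = ((2 * m : ℕ) : ℤ) := by push_cast; ring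
      rw [h6, Int.natCast_dvd_natCast] at h5
      have h7 := (Nat.Prime.pow_dvd_iff_le_factorization Nat.prime_two (by omega)).1 h5
      have h8 : (4 * m).factorization 2 = (2 * m).factorization 2 + 1 := by
        have : 4 * m = 2 * (2 * m) := by ring
        rw [this, Nat.factorization_mul (by norm_num) (by omega)]
        simp [Nat.prime_two.factorization_self]
        ring
      omega
  · exact ⟨a₀, h1, hcop a₀ h1 h2, h3⟩

/-- the class -/
theorem cls (m a : ℕ) (hm : 0 < m) (ham : a.Coprime m) (c d : Fin K → ℤ) (hloc : LocC m a c d)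
    (ha1 : ∀ p : ℕ, p.Prime → p ≠ 2 → p ∣ m → ¬ ((p ^ m.factorization p : ℕ) : ℤ) ∣ (a : ℤ) - 1) (y : ℕ) :
    ∃ M r : ℕ, 0 < M ∧ m ∣ M ∧ 2 ∣ M ∧ (∀ p : ℕ, p.Prime → p ∣ 4 * m → M.factorization p = (4 * m).factorization p) ∧
      r ≡ a [MOD m] ∧ r.Coprime M ∧ (∀ p : ℕ, p.Prime → p ≤ y → p ∣ M) ∧
      ∀ p : ℕ, p.Prime → p ∣ M → (∀ l, ¬ (p : ℤ) ∣ c l * r + d l) ∧
        ¬ ((p ^ M.factorization p : ℕ) : ℤ) ∣ (r : ℤ) - 1 ∧ (p ≠ 2 → ¬ p ∣ m → ¬ (p : ℤ) ∣ (r : ℤ) - 1) := by
  classical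
  obtain ⟨a₁, h1, h2, h3⟩ := two_adic m a hm ham
  obtain ⟨E, hE⟩ : ∃ E : Finset ℕ, E = ((y + 1).primesBelow).filter (fun q => ¬ q ∣ 4 * m) := ⟨_, rfl⟩
  have hEp : ∀ q, q ∈ E ↔ (q ≤ y ∧ q.Prime) ∧ ¬ q ∣ 4 * m := by
    intro q
    rw [hE, mem_filter, Nat.mem_primesBelow]
    constructor
    · rintro ⟨⟨h1, h2⟩, h3⟩; exact ⟨⟨by omega, h2⟩, h3⟩
    · rintro ⟨⟨h1, h2⟩, h3⟩; exact ⟨⟨by omega, h2⟩, h3⟩
  -- the local classes
  have hx : ∀ p : ℕ, ∃ x : ℕ, p.Prime → (p ∣ m → (p : ℤ) ∣ (x : ℤ) - a) ∧ ¬ (p : ℤ) ∣ (x : ℤ) ∧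
      (∀ l, ¬ (p : ℤ) ∣ c l * x + d l) ∧ (p ≠ 2 → ¬ p ∣ m → ¬ (p : ℤ) ∣ (x : ℤ) - 1) := by
    intro p
    by_cases hp : p.Prime
    · obtain ⟨x, hx1, hx2, hx3, hx4⟩ := hloc p hp
      have hp0 : (0 : ℤ) < p := by exact_mod_cast hp.pos
      obtain ⟨x', hx'⟩ := Int.eq_ofNat_of_zero_le (Int.emod_nonneg x hp0.ne')
      have hd : (p : ℤ) ∣ (x' : ℤ) - x := by
        have : x = (x' : ℤ) + p * (x / p) := by
          have := Int.emod_add_mul_ediv x p
          rw [hx'] at this
          exact this.symm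
        exact ⟨-(x / p), by linarith⟩
      refine ⟨x', fun _ => ⟨fun h => ?_, fun h => hx2 ?_, fun l h => hx3 l ?_, fun h5 h6 h => hx4 h5 h6 ?_⟩⟩
      · have := dvd_add hd (hx1 h)
        rwa [sub_add_sub_cancel] at this
      · have := dvd_sub h hd
        rwa [sub_sub_cancel] at this
      · have := dvd_sub h (hd.mul_left (c l))
        have e : c l * (x' : ℤ) + d l - c l * ((x' : ℤ) - x) = c l * x + d l := by ring
        rwa [e] at this
      · have := dvd_sub h hd
        have e : (x' : ℤ) - 1 - ((x' : ℤ) - x) = x - 1 := by ring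
        rwa [e] at this
    · exact ⟨0, fun h => absurd h hp⟩
  choose x hx using hx
  obtain ⟨z, hz⟩ := Nat.chineseRemainderOfFinset x id E (fun p hp => ((hEp p).1 hp).1.2.ne_zero) (by
    intro p hp q hq hpq
    exact (Nat.coprime_primes ((hEp p).1 hp).1.2 ((hEp q).1 hq).1.2).2 hpq)
  obtain ⟨m₂, hm₂⟩ : ∃ m₂ : ℕ, m₂ = ∏ q ∈ E, q := ⟨_, rfl⟩
  have hm₂0 : 0 < m₂ := by
    rw [hm₂]
    exact Finset.prod_pos fun q hq => ((hEp q).1 hq).1.2.pos
  have hcop : (4 * m).Coprime m₂ := by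
    rw [hm₂]
    apply Nat.Coprime.prod_right
    intro q hq
    have := (hEp q).1 hq
    exact ((Nat.Prime.coprime_iff_not_dvd this.1.2).2 this.2).symm
  obtain ⟨r, hr1, hr2⟩ := Nat.chineseRemainder hcop a₁ z
  have hEd : ∀ q ∈ E, q ∣ m₂ := fun q hq => by rw [hm₂]; exact dvd_prod_of_mem _ hq
  have hcase : ∀ q : ℕ, q.Prime → q ∣ 4 * m * m₂ → q ∣ 4 * m ∨ q ∈ E := by
    intro q hq hqd
    rcases (Nat.Prime.dvd_mul hq).1 hqd with h | h
    · exact Or.inl h
    · right
      rw [hm₂] at h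
      obtain ⟨q', hq', hqq'⟩ := (Nat.prime_iff.1 hq).exists_mem_finset_dvd h
      have := (Nat.prime_dvd_prime_iff_eq hq ((hEp q').1 hq').1.2).1 hqq'
      rwa [this]
  have hrm : r ≡ a [MOD m] := (hr1.of_dvd (Dvd.intro_left 4 rfl)).trans h1
  have hrE : ∀ q ∈ E, (q : ℤ) ∣ (x q : ℤ) - r := by
    intro q hq
    have h5 : r ≡ x q [MOD q] := (hr2.of_dvd (hEd q hq)).trans (hz q hq)
    exact Nat.modEq_iff_dvd.1 h5
  have hrm' : ∀ q : ℕ, q ∣ m → (q : ℤ) ∣ (r : ℤ) - a := by
    intro q hq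
    exact Nat.modEq_iff_dvd.1 (hrm.of_dvd hq).symm
  have hodd : r % 2 = 1 := by
    have h5 : r ≡ a₁ [MOD 2] := hr1.of_dvd ⟨2 * m, by ring⟩
    have h6 : a₁ % 2 = 1 := by
      by_contra hcon
      have h7 : 2 ∣ Nat.gcd a₁ (4 * m) := Nat.dvd_gcd (by omega) ⟨2 * m, by ring⟩
      rw [Nat.coprime_iff_gcd_eq_one.1 h2] at h7
      omega
    rw [h5, h6]
  have hfac : ∀ q : ℕ, q.Prime → q ∣ 4 * m → (4 * m * m₂).factorization q = (4 * m).factorization q := by
    intro q hq hqd
    rw [Nat.factorization_mul (by omega) hm₂0.ne', Finsupp.add_apply]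
    have : m₂.factorization q = 0 := by
      apply Nat.factorization_eq_zero_of_not_dvd
      intro h5
      have := Nat.dvd_gcd hqd h5
      rw [Nat.coprime_iff_gcd_eq_one.1 hcop] at this
      exact hq.one_lt.ne' (Nat.dvd_one.1 this)
    rw [this, add_zero]
  refine ⟨4 * m * m₂, r, by positivity, ?_, ?_, hfac, hrm, ?_, ?_, ?_⟩
  · exact (Dvd.intro_left 4 rfl : m ∣ 4 * m).mul_right _
  · exact ⟨2 * m * m₂, by ring⟩
  · -- coprime
    rw [Nat.coprime_iff_gcd_eq_one]
    by_contra hne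
    obtain ⟨q, hq, hqd⟩ := Nat.exists_prime_and_dvd hne
    have h5 := hqd.trans (Nat.gcd_dvd_left _ _)
    rcases hcase q hq (hqd.trans (Nat.gcd_dvd_right _ _)) with h | h
    · have h6 : q ∣ a₁ := ((hr1.of_dvd h).dvd_iff dvd_rfl).1 h5
      have h7 := Nat.dvd_gcd h6 h
      rw [Nat.coprime_iff_gcd_eq_one.1 h2] at h7
      exact hq.one_lt.ne' (Nat.dvd_one.1 h7)
    · have h6 := dvd_add (hrE q h) (Int.natCast_dvd_natCast.2 h5)
      rw [sub_add_cancel] at h6
      exact (hx q hq).2.1 h6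
  · intro p hp hpy
    by_cases h : p ∣ 4 * m
    · exact h.mul_right _
    · exact (hEd p ((hEp p).2 ⟨⟨hpy, hp⟩, h⟩)).mul_left _
  · intro p hp hpd
    rcases hcase p hp hpd with h | h
    · rcases Nat.decEq p 2 with hp2 | hp2
      · -- odd prime of `m`
        have hpm : p ∣ m := by
          rcases (Nat.Prime.dvd_mul hp).1 h with h5 | h5
          · have : p ∣ 2 ^ 2 := h5
            exact absurd ((Nat.prime_dvd_prime_iff_eq hp Nat.prime_two).1 (hp.dvd_of_dvd_pow this)) hp2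
          · exact h5
        obtain ⟨y1, y2, y3, y4⟩ := hx p hp
        have hrx : (p : ℤ) ∣ (x p : ℤ) - r := by
          have := dvd_sub (y1 hpm) (hrm' p hpm)
          rwa [sub_sub_sub_cancel_right] at this
        refine ⟨fun l h5 => y3 l ?_, ?_, fun _ h5 => absurd hpm h5⟩
        · have := dvd_add h5 (hrx.mul_left (c l))
          have e : c l * (r : ℤ) + d l + c l * ((x p : ℤ) - r) = c l * x p + d l := by ring
          rwa [e] at this
        · have h5 : (4 * m * m₂).factorization p = m.factorization p := by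
            rw [hfac p hp h, Nat.factorization_mul (by norm_num) hm.ne', Finsupp.add_apply]
            have : (4 : ℕ).factorization p = 0 := by
              apply Nat.factorization_eq_zero_of_not_dvd
              intro h6
              have : p ∣ 2 ^ 2 := h6
              exact hp2 ((Nat.prime_dvd_prime_iff_eq hp Nat.prime_two).1 (hp.dvd_of_dvd_pow this))
            rw [this, zero_add]
          rw [h5]
          intro h6
          apply ha1 p hp hp2 hpm
          have h7 : ((p ^ m.factorization p : ℕ) : ℤ) ∣ (r : ℤ) - a := hrm' _ (Nat.ordProj_dvd m p)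
          have := dvd_sub h6 h7
          have e : (r : ℤ) - 1 - (r - a) = a - 1 := by ring
          rwa [e] at this
      · subst hp2
        obtain ⟨y1, y2, y3, y4⟩ := hx 2 hp
        have hrx : (2 : ℤ) ∣ (x 2 : ℤ) - r := by
          have : ¬ (2 : ℤ) ∣ (x 2 : ℤ) := by exact_mod_cast y2
          omega
        refine ⟨fun l h5 => y3 l ?_, ?_, fun h5 => absurd rfl h5⟩
        · have h5' : (2 : ℤ) ∣ c l * (r : ℤ) + d l := by exact_mod_cast h5
          have := dvd_add h5' (hrx.mul_left (c l))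
          have e : c l * (r : ℤ) + d l + c l * ((x 2 : ℤ) - r) = c l * x 2 + d l := by ring
          rw [e] at this
          exact_mod_cast this
        · rw [hfac 2 hp h]
          intro h6
          apply h3
          have h7 : ((2 ^ (4 * m).factorization 2 : ℕ) : ℤ) ∣ (r : ℤ) - a₁ :=
            Nat.modEq_iff_dvd.1 (hr1.of_dvd (Nat.ordProj_dvd (4 * m) 2)).symm
          have := dvd_sub h6 h7
          have e : (r : ℤ) - 1 - (r - a₁) = a₁ - 1 := by ring
          rwa [e] at this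
    · obtain ⟨y1, y2, y3, y4⟩ := hx p hp
      have hp4 := ((hEp p).1 h).2
      have hp2 : p ≠ 2 := by
        rintro rfl
        exact hp4 ⟨2 * m, by ring⟩
      have hpm : ¬ p ∣ m := fun h5 => hp4 (h5.mul_left 4)
      have hrx := hrE p h
      have key : ¬ (p : ℤ) ∣ (r : ℤ) - 1 := by
        intro h5
        apply y4 hp2 hpm
        have := dvd_add hrx h5
        have e : (x p : ℤ) - r + (r - 1) = x p - 1 := by ring
        rwa [e] at this
      refine ⟨fun l h5 => y3 l ?_, fun h5 => key (dvd_trans ?_ h5), fun _ _ => key⟩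
      · have := dvd_add h5 (hrx.mul_left (c l))
        have e : c l * (r : ℤ) + d l + c l * ((x p : ℤ) - r) = c l * x p + d l := by ring
        rwa [e] at this
      · rw [Int.natCast_dvd_natCast]
        exact dvd_pow_self p ((hp.factorization_pos_of_dvd (by positivity) hpd).ne')

/-- the forms -/
def fa (M D : ℕ) (c : Fin K → ℤ) : Fin (K + 2) → ℤ := Fin.cons (M : ℤ) (Fin.cons ((M / D : ℕ) : ℤ) (fun l => c l * M))
def fb (r D : ℕ) (c d : Fin K → ℤ) : Fin (K + 2) → ℤ :=
  Fin.cons (r : ℤ) (Fin.cons (((r - 1) / D : ℕ) : ℤ) (fun l => c l * r + d l))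

/-- a prime larger than the number of the forms is no obstruction -/
theorem adm_big {k : ℕ} (a b : Fin k → ℤ) (p : ℕ) (hp : p.Prime) (hpa : ∀ l, ¬ (p : ℤ) ∣ a l) (hk : k < p) :
    ∃ n : ℤ, ∀ i, ¬ (p : ℤ) ∣ a i * n + b i := by
  classical
  by_contra hcon
  push Not at hcon
  choose g hg using fun n : ℕ => hcon n
  have hinj : Set.InjOn g (Finset.range p : Set ℕ) := by
    intro u hu c hc hac
    rw [Finset.mem_coe, Finset.mem_range] at hu hc
    have h5 := hg u
    have h6 := hg c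
    rw [hac] at h5
    have h7 := dvd_sub h5 h6
    have h8 : (a (g c) * (u : ℤ) + b (g c)) - (a (g c) * (c : ℤ) + b (g c)) = a (g c) * ((u : ℤ) - c) := by ring
    rw [h8] at h7
    have h7' := ((Nat.prime_iff_prime_int.1 hp).dvd_mul.1 h7).resolve_left (hpa _)
    have h9 : (c : ℤ) ≡ u [ZMOD p] := (Int.modEq_iff_dvd).2 h7'
    have h10 : c ≡ u [MOD p] := Int.natCast_modEq_iff.1 h9
    exact (Nat.ModEq.eq_of_lt_of_lt h10 hc hu).symm
  have h5 := Finset.card_le_card_of_injOn g (fun a _ => Finset.mem_univ (g a)) hinj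
  rw [Finset.card_range, Finset.card_univ, Fintype.card_fin] at h5
  omega

/-- **the class and the system of the forms.** -/
theorem sys_ex (m a : ℕ) (hm : 0 < m) (ham : a.Coprime m) (c d : Fin K → ℤ) (hc : ∀ l, c l ≠ 0) (hloc : LocC m a c d)
    (ha1 : ∀ p : ℕ, p.Prime → p ≠ 2 → p ∣ m → ¬ ((p ^ m.factorization p : ℕ) : ℤ) ∣ (a : ℤ) - 1) :
    ∃ M r D K' : ℕ, 0 < M ∧ 2 ≤ r ∧ 0 < D ∧ D ∣ M ∧ D ∣ r - 1 ∧ m ∣ M ∧ r ≡ a [MOD m] ∧
      (∀ X : ℕ, 1 ≤ X → SysL (K + 2) M K' X (fa M D c) (fb r D c d) 0 1) ∧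
      D ∣ 2 * m := by
  classical
  obtain ⟨M, r, hM, hmM, h2M, hfac, hra, hrM, hy, hp⟩ := cls m a hm ham c d hloc ha1 (K + 2 + ∑ l, (c l).natAbs)
  have hr2 : 2 ≤ r := by
    by_contra hcon
    have h1 := (hp 2 Nat.prime_two h2M).2.1
    interval_cases r
    · rw [Nat.coprime_zero_left] at hrM
      omega
    · simp at h1
  obtain ⟨D, hD⟩ : ∃ D : ℕ, D = Nat.gcd (r - 1) M := ⟨_, rfl⟩
  have hD0 : 0 < D := by rw [hD]; exact Nat.gcd_pos_of_pos_right _ hM
  have hDM : D ∣ M := by rw [hD]; exact Nat.gcd_dvd_right _ _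
  have hDr : D ∣ r - 1 := by rw [hD]; exact Nat.gcd_dvd_left _ _
  have hrc : ((r - 1 : ℕ) : ℤ) = (r : ℤ) - 1 := by push_cast [Nat.cast_sub (by omega : 1 ≤ r)]; ring
  have hMD : ∀ p : ℕ, p.Prime → p ∣ M → p ∣ M / D := by
    intro p hpp hpM
    by_contra hcon
    apply (hp p hpp hpM).2.1
    have h1 : p ^ M.factorization p ∣ M / D * D := by
      rw [Nat.div_mul_cancel hDM]
      exact Nat.ordProj_dvd M p
    have h2 : p ^ M.factorization p ∣ D :=
      (((Nat.Prime.coprime_iff_not_dvd hpp).2 hcon).pow_left _).dvd_of_dvd_mul_left h1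
    rw [← hrc, Int.natCast_dvd_natCast]
    exact h2.trans hDr
  have hrD : ∀ p : ℕ, p.Prime → p ∣ M → ¬ p ∣ (r - 1) / D := by
    intro p hpp hpM h1
    have h2 : Nat.Coprime ((r - 1) / D) (M / D) := by
      rw [hD]
      exact Nat.coprime_div_gcd_div_gcd (by rw [← hD]; exact hD0)
    have h3 := Nat.dvd_gcd h1 (hMD p hpp hpM)
    rw [Nat.coprime_iff_gcd_eq_one.1 h2] at h3
    exact hpp.one_lt.ne' (Nat.dvd_one.1 h3)
  have hMD0 : 0 < M / D := Nat.div_pos (Nat.le_of_dvd hM hDM) hD0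
  have hfa0 : ∀ l, fa M D c l ≠ 0 := by
    intro l
    unfold fa
    refine Fin.cases ?_ (fun l => ?_) l
    · rw [Fin.cons_zero]
      exact_mod_cast hM.ne'
    · rw [Fin.cons_succ]
      refine Fin.cases ?_ (fun l => ?_) l
      · rw [Fin.cons_zero]
        exact_mod_cast hMD0.ne'
      · rw [Fin.cons_succ]
        exact mul_ne_zero (hc l) (by exact_mod_cast hM.ne')
  have hadm : AdmL (fa M D c) (fb r D c d) := by
    intro p hpp
    by_cases hpM : p ∣ M
    · refine ⟨0, fun i => ?_⟩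
      rw [mul_zero, zero_add]
      unfold fb
      refine Fin.cases ?_ (fun l => ?_) i
      · rw [Fin.cons_zero, Int.natCast_dvd_natCast]
        intro h1
        have h3 := Nat.dvd_gcd h1 hpM
        rw [Nat.coprime_iff_gcd_eq_one.1 hrM] at h3
        exact hpp.one_lt.ne' (Nat.dvd_one.1 h3)
      · rw [Fin.cons_succ]
        refine Fin.cases ?_ (fun l => ?_) l
        · rw [Fin.cons_zero, Int.natCast_dvd_natCast]
          exact hrD p hpp hpM
        · rw [Fin.cons_succ]
          exact (hp p hpp hpM).1 l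
    · have hpy : K + 2 + ∑ l, (c l).natAbs < p := by
        by_contra hcon
        exact hpM (hy p hpp (not_lt.1 hcon))
      apply adm_big _ _ p hpp _ (by omega)
      intro l
      unfold fa
      refine Fin.cases ?_ (fun l => ?_) l
      · rw [Fin.cons_zero, Int.natCast_dvd_natCast]
        exact hpM
      · rw [Fin.cons_succ]
        refine Fin.cases ?_ (fun l => ?_) l
        · rw [Fin.cons_zero, Int.natCast_dvd_natCast]
          exact fun h => hpM (h.trans (Nat.div_dvd_of_dvd hDM))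
        · rw [Fin.cons_succ]
          intro h
          rcases (Nat.prime_iff_prime_int.1 hpp).dvd_or_dvd h with h1 | h1
          · have h2 := Int.natCast_dvd.1 h1
            have h3 := Nat.le_of_dvd (Int.natAbs_pos.2 (hc l)) h2
            have h4 := Finset.single_le_sum (f := fun l => (c l).natAbs) (fun j _ => Nat.zero_le _) (mem_univ l)
            omega
          · exact hpM (Int.natCast_dvd_natCast.1 h1)
  obtain ⟨K', hK'⟩ : ∃ K' : ℕ, K' = ∑ l, (fa M D c l).natAbs + ∑ l, (fb r D c d l).natAbs := ⟨_, rfl⟩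
  refine ⟨M, r, D, K', hM, hr2, hD0, hDM, hDr, hmM, hra, fun X hX => ?_, ?_⟩
  · have e1 : fa M D c 0 = (M : ℤ) := rfl
    have e2 : fa M D c 1 = ((M / D : ℕ) : ℤ) := rfl
    have e3 : fb r D c d 0 = (r : ℤ) := rfl
    have e4 : fb r D c d 1 = (((r - 1) / D : ℕ) : ℤ) := rfl
    refine ⟨hfa0, ?_, ?_, ?_, ?_, hadm, ?_, ?_⟩
    · rw [e1]; simp
    · rw [e2, Int.natAbs_natCast]
      exact Nat.div_le_self M D
    · intro l
      have h4 := Finset.single_le_sum (f := fun l => (fa M D c l).natAbs) (fun j _ => Nat.zero_le _) (mem_univ l)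
      have h5 : ((fa M D c l).natAbs : ℤ) ≤ K' := by
        rw [hK']
        exact_mod_cast h4.trans (Nat.le_add_right _ _)
      rw [Int.natCast_natAbs] at h5
      exact h5
    · intro l
      have h4 := Finset.single_le_sum (f := fun l => (fb r D c d l).natAbs) (fun j _ => Nat.zero_le _) (mem_univ l)
      have h5 : ((fb r D c d l).natAbs : ℤ) ≤ K' := by
        rw [hK']
        exact_mod_cast h4.trans (Nat.le_add_left _ _)
      rw [Int.natCast_natAbs] at h5
      refine h5.trans ?_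
      have h6 : (1 : ℤ) ≤ X := by exact_mod_cast hX
      have h7 : (0 : ℤ) ≤ K' := by positivity
      nlinarith
    · rw [e1, e2, e3, e4]
      intro h
      have h1 := congrArg Prod.snd h
      simp only at h1
      have h2 : (r - 1) / D = r := by exact_mod_cast h1
      have h3 := Nat.div_le_self (r - 1) D
      omega
    · rw [e1, e2, e3, e4]
      intro h
      have h1 := congrArg Prod.fst h
      simp only at h1
      have h2 : (0 : ℤ) < M := by exact_mod_cast hM
      have h3 : (0 : ℤ) < ((M / D : ℕ) : ℤ) := by exact_mod_cast hMD0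
      omega
  · rw [← Nat.factorization_prime_le_iff_dvd hD0.ne' (by omega)]
    intro p hpp
    by_cases hpD : p ∣ D
    · have hpM := hpD.trans hDM
      obtain ⟨-, g2, g3⟩ := hp p hpp hpM
      have hp4 : p ∣ 4 * m := by
        by_contra hcon
        have h2 : p ≠ 2 := by
          rintro rfl
          exact hcon ⟨2 * m, by ring⟩
        apply g3 h2 (fun h => hcon (h.mul_left 4))
        rw [← hrc, Int.natCast_dvd_natCast]
        exact hpD.trans hDr
      have h5 : D.factorization p < M.factorization p := by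
        by_contra hcon
        apply g2
        rw [← hrc, Int.natCast_dvd_natCast]
        exact (pow_dvd_pow p (not_lt.1 hcon)).trans ((Nat.ordProj_dvd D p).trans hDr)
      rw [hfac p hpp hp4] at h5
      rcases Nat.decEq p 2 with h2 | h2
      · have h6 : ∀ w : ℕ, w = 2 ∨ w = 4 → w.factorization p = 0 := by
          intro w hw
          apply Nat.factorization_eq_zero_of_not_dvd
          intro h6
          have : p ∣ 2 ^ 2 := by
            rcases hw with rfl | rfl
            · exact h6.trans ⟨2, rfl⟩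
            · exact h6
          exact h2 ((Nat.prime_dvd_prime_iff_eq hpp Nat.prime_two).1 (hpp.dvd_of_dvd_pow this))
        rw [Nat.factorization_mul (by norm_num) hm.ne', Finsupp.add_apply, h6 4 (Or.inr rfl)] at h5
        rw [Nat.factorization_mul (by norm_num) hm.ne', Finsupp.add_apply, h6 2 (Or.inl rfl)]
        omega
      · subst h2
        have h8 : (4 * m).factorization 2 = (2 * m).factorization 2 + 1 := by
          have : 4 * m = 2 * (2 * m) := by ring
          rw [this, Nat.factorization_mul (by norm_num) (by omega)]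
          simp [Nat.prime_two.factorization_self]
          ring
        omega
    · rw [Nat.factorization_eq_zero_of_not_dvd hpD]
      exact Nat.zero_le _

end Pool.Agent.T6.H2.PR
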