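import Mathlib

/-!
# Some estimates for large arguments (helper2)
-/

set_option autoImplicit false

open Filter

namespace Pool.Agent.T6.H2.PR

theorem ev_pow (A α α' : ℝ) (hA : 1 ≤ A) (h0 : 0 < α') (h : α' < α) :
    ∀ᶠ Y : ℕ in atTop, ∀ X : ℝ, 0 ≤ X → X ≤ A * Y → X ^ α' ≤ (Y : ℝ) ^ α := by
  have h1 : ∀ᶠ Y : ℕ in atTop, A ^ α' ≤ (Y : ℝ) ^ (α - α') :=
    ((tendsto_rpow_atTop (by linarith : 0 < α - α')).comp tendsto_natCast_atTop_atTop).eventually_ge_atTop _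
  filter_upwards [h1, eventually_ge_atTop 1] with Y hY hY1 X hX0 hX
  have hY0 : (0 : ℝ) < Y := by exact_mod_cast hY1
  calc X ^ α' ≤ (A * Y) ^ α' := Real.rpow_le_rpow hX0 hX h0.le
    _ = A ^ α' * (Y : ℝ) ^ α' := Real.mul_rpow (by linarith) hY0.le
    _ ≤ (Y : ℝ) ^ (α - α') * (Y : ℝ) ^ α' := by gcongr
    _ = (Y : ℝ) ^ α := by rw [← Real.rpow_add hY0]; congr 1; ring

theorem ev_log (k : ℕ) (C η α : ℝ) (hη : 0 < η) (hα : α < 1) :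
    ∀ᶠ Y : ℕ in atTop, C * (Y : ℝ) ^ α ≤ η * (Y / Real.log Y ^ k) := by
  have hα' : 0 < (1 - α) / 2 := by linarith
  have h := (isLittleO_log_rpow_rpow_atTop (k : ℝ) hα').bound (zero_lt_one)
  have h' := tendsto_natCast_atTop_atTop (R := ℝ) |>.eventually h
  have h2 : ∀ᶠ Y : ℕ in atTop, |C| / η ≤ (Y : ℝ) ^ ((1 - α) / 2) :=
    ((tendsto_rpow_atTop hα').comp tendsto_natCast_atTop_atTop).eventually_ge_atTop _
  filter_upwards [h', h2, eventually_ge_atTop 3] with Y hY hY2 hY3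
  have hY0 : (0 : ℝ) < Y := by exact_mod_cast (by omega : 0 < Y)
  have hlog : 0 < Real.log Y := Real.log_pos (by exact_mod_cast (by omega : 1 < Y))
  rw [Real.norm_eq_abs, Real.norm_eq_abs, one_mul, Real.rpow_natCast] at hY
  have h3 : Real.log Y ^ k ≤ (Y : ℝ) ^ ((1 - α) / 2) :=
    (le_abs_self _).trans (hY.trans (le_of_eq (abs_of_nonneg (by positivity))))
  rw [div_le_iff₀ hη] at hY2
  rw [← mul_div_assoc, le_div_iff₀ (pow_pos hlog k)]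
  have hYα : 0 ≤ (Y : ℝ) ^ α := by positivity
  have h4 : C ≤ (Y : ℝ) ^ ((1 - α) / 2) * η := (le_abs_self C).trans hY2
  have e : (Y : ℝ) ^ ((1 - α) / 2) * (Y : ℝ) ^ α * (Y : ℝ) ^ ((1 - α) / 2) = Y := by
    rw [← Real.rpow_add hY0, ← Real.rpow_add hY0]
    have : (1 - α) / 2 + α + (1 - α) / 2 = 1 := by ring
    rw [this, Real.rpow_one]
  calc C * (Y : ℝ) ^ α * Real.log Y ^ k
      ≤ ((Y : ℝ) ^ ((1 - α) / 2) * η) * (Y : ℝ) ^ α * Real.log Y ^ k := by gcongr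
    _ ≤ ((Y : ℝ) ^ ((1 - α) / 2) * η) * (Y : ℝ) ^ α * (Y : ℝ) ^ ((1 - α) / 2) := by gcongr
    _ = η * ((Y : ℝ) ^ ((1 - α) / 2) * (Y : ℝ) ^ α * (Y : ℝ) ^ ((1 - α) / 2)) := by ring
    _ = η * Y := by rw [e]

end Pool.Agent.T6.H2.PR
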