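import Pool.Agent.Y855.B20

/-!
# Groups of rational numbers with a large index modulo a prime (helper2)
-/

set_option autoImplicit false

open Finset

namespace Pool.Agent.T6.H2.PR

open Pool.Agent.Y855

open Classical in
/-- apart from few primes `p`, fewer than `u` groups of the family consist of `l`-th powers modulo `p`, `l > p ^ (1/9)` -/
theorem fam (T : Finset (Subgroup ℚˣ)) (u : ℕ)
    (hJ : ∀ J ⊆ T, J.card = u → ∃ b : Fin 9 → ℚˣ, (∀ j, b j ∈ sSup (J : Set (Subgroup ℚˣ))) ∧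
      ∀ e : Fin 9 → ℤ, ∏ j, b j ^ e j = 1 → ∀ j, e j = 0) :
    ∃ (C : ℝ) (H : ℕ), 0 < C ∧ ∀ L : ℝ, 0 ≤ L → ∃ B : Finset ℕ, (B.card : ℝ) ≤ C * Real.exp ((80 / 81) * L) ∧
      ∀ p l : ℕ, ∀ hp : p.Prime, H < p → p ∉ B → l.Prime → l ∣ p - 1 →
        (((p - 1) / l : ℕ) : ℝ) ≤ Real.exp ((8 / 9) * L) →
          (T.filter (fun W => W ≤ Qs p hp ((p - 1) / l))).card < u := by
  have hJ' : ∀ J : Finset (Subgroup ℚˣ), ∃ (C : ℝ) (H : ℕ), 0 < C ∧ (J ⊆ T → J.card = u → ∀ L : ℝ, 0 ≤ L →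
      ∃ B : Finset ℕ, (#B : ℝ) ≤ C * Real.exp ((80 / 81) * L) ∧
      ∀ p l : ℕ, ∀ hp : p.Prime, H < p → p ∉ B → l.Prime → l ∣ p - 1 →
        (((p - 1) / l : ℕ) : ℝ) ≤ Real.exp ((8 / 9) * L) → ¬ ∀ W ∈ J, W ≤ Qs p hp ((p - 1) / l)) := by
    intro J
    by_cases hJI : J ⊆ T ∧ J.card = u
    · obtain ⟨b, hb1, hb2⟩ := hJ J hJI.1 hJI.2
      have hInd : Ind (fun j => ((b j : ℚˣ) : ℚ)) := by
        intro e he
        apply hb2 e
        apply Units.ext
        rw [Units.val_one, ← he]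
        push_cast
        rfl
      obtain ⟨C, H, hC, hgm⟩ := gm_exp (by norm_num : 1 ≤ 9) (fun j => ((b j : ℚˣ) : ℚ)) (fun j => (b j).ne_zero) hInd
        (1 / 9) (by norm_num) (by norm_num) (by norm_num)
      refine ⟨C, H, hC, fun _ _ L hL => ?_⟩
      obtain ⟨B, hB1, hB2⟩ := hgm L hL
      refine ⟨B, ?_, fun p l hp hpH hpB hl hlp hg hall => ?_⟩
      · refine hB1.trans (le_of_eq ?_)
        congr 2
        ring
      have hp10 : 0 < p - 1 := by have := hp.two_le; omega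
      refine hB2 p hp (by omega) hpB ((p - 1) / l) (Nat.div_pos (Nat.le_of_dvd hp10 hlp) hl.pos) ?_ ?_
      · refine hg.trans (le_of_eq ?_)
        congr 1
        ring
      · intro j
        have h1 : sSup (J : Set (Subgroup ℚˣ)) ≤ Qs p hp ((p - 1) / l) := sSup_le fun W hW => hall W hW
        have h2 := h1 (hb1 j)
        rw [Qs_mem] at h2
        exact h2.2
    · exact ⟨1, 0, one_pos, fun h1 h2 => absurd ⟨h1, h2⟩ hJI⟩
  choose C HJ hC hJ' using hJ'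
  refine ⟨∑ J ∈ T.powersetCard u, C J + 1, ∑ J ∈ T.powersetCard u, HJ J, ?_, fun L hL => ?_⟩
  · have : 0 ≤ ∑ J ∈ T.powersetCard u, C J := sum_nonneg fun J _ => (hC J).le
    linarith
  have hBJ : ∀ J : Finset (Subgroup ℚˣ), ∃ B : Finset ℕ, J ⊆ T → J.card = u →
      (#B : ℝ) ≤ C J * Real.exp ((80 / 81) * L) ∧
      ∀ p l : ℕ, ∀ hp : p.Prime, HJ J < p → p ∉ B → l.Prime → l ∣ p - 1 →
        (((p - 1) / l : ℕ) : ℝ) ≤ Real.exp ((8 / 9) * L) → ¬ ∀ W ∈ J, W ≤ Qs p hp ((p - 1) / l) := by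
    intro J
    by_cases hJI : J ⊆ T ∧ J.card = u
    · obtain ⟨B, hB⟩ := hJ' J hJI.1 hJI.2 L hL
      exact ⟨B, fun _ _ => hB⟩
    · exact ⟨∅, fun h1 h2 => absurd ⟨h1, h2⟩ hJI⟩
  choose BJ hBJ using hBJ
  refine ⟨(T.powersetCard u).biUnion BJ, ?_, ?_⟩
  · have h1 : (((T.powersetCard u).biUnion BJ).card : ℝ) ≤ ∑ J ∈ T.powersetCard u, ((BJ J).card : ℝ) := by
      exact_mod_cast card_biUnion_le
    refine h1.trans ?_
    rw [add_mul, sum_mul, one_mul]
    have h2 : ∑ J ∈ T.powersetCard u, ((BJ J).card : ℝ) ≤ ∑ J ∈ T.powersetCard u, C J * Real.exp ((80 / 81) * L) := by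
      apply sum_le_sum
      intro J hJ
      rw [mem_powersetCard] at hJ
      exact (hBJ J hJ.1 hJ.2).1
    have h3 := Real.exp_pos ((80 / 81) * L)
    linarith
  · intro p l hp hpH hpB hl hlp hg
    by_contra hcon
    obtain ⟨J, hJs, hJc⟩ := exists_subset_card_eq (not_lt.1 hcon)
    have hJI : J ⊆ T := hJs.trans (filter_subset _ _)
    have hJm : J ∈ T.powersetCard u := mem_powersetCard.2 ⟨hJI, hJc⟩
    refine (hBJ J hJI hJc).2 p l hp ?_ (fun h1 => hpB (mem_biUnion.2 ⟨J, hJm, h1⟩)) hl hlp hg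
      (fun W hW => (mem_filter.1 (hJs hW)).2)
    have := Finset.single_le_sum (f := HJ) (fun j _ => Nat.zero_le _) hJm
    omega

theorem index_dvd' (p : ℕ) (hp : p.Prime) (W : Subgroup ℚˣ) (κ : ℕ) (hκ : 0 < κ)
    (h : ∀ l : ℕ, l.Prime → l ∣ (img p W).index → ¬ l ^ (κ.factorization l + 1) ∣ p - 1) :
    (img p W).index ∣ κ := by
  have : Fact p.Prime := ⟨hp⟩
  have hcard : Nat.card (img p W) * (img p W).index = p - 1 := by
    rw [Subgroup.card_mul_index, Nat.card_eq_fintype_card, ZMod.card_units]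
  have hi0 : (img p W).index ≠ 0 := by
    intro h0
    rw [h0, mul_zero] at hcard
    have := hp.two_le
    omega
  rw [← Nat.factorization_prime_le_iff_dvd hi0 hκ.ne']
  intro l hl
  by_cases hli : l ∣ (img p W).index
  · by_contra hcon
    push Not at hcon
    apply h l hl hli
    refine (pow_dvd_pow l hcon).trans ((Nat.ordProj_dvd _ l).trans ?_)
    exact ⟨_, by rw [← hcard, mul_comm]⟩
  · rw [Nat.factorization_eq_zero_of_not_dvd hli]
    exact Nat.zero_le _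

/-- a group with a nonsquare has odd index -/
theorem not_two_dvd (p : ℕ) (hp : p.Prime) (hp2 : 2 < p) (W : Subgroup ℚˣ) (hW : W ≤ Qs p hp 0)
    (h : ∃ w ∈ W, ¬ IsSquare ((((w : ℚ).num * (w : ℚ).den : ℤ)) : ZMod p)) : ¬ 2 ∣ (img p W).index := by
  have : Fact p.Prime := ⟨hp⟩
  obtain ⟨w, hw, hsq⟩ := h
  intro h7
  obtain ⟨-, h8⟩ := img_index p hp W hW 2 Nat.prime_two h7
  have h9 := h8 hw
  rw [Qs_mem] at h9
  apply hsq
  have hn0 : (((w : ℚ).num : ℤ) : ZMod p) ≠ 0 :=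
    fun h => h9.1.1 ((ZMod.intCast_zmod_eq_zero_iff_dvd _ _).1 h)
  have hd0 : (((w : ℚ).den : ℕ) : ZMod p) ≠ 0 := fun h => h9.1.2 ((ZMod.natCast_eq_zero_iff _ _).1 h)
  push_cast
  have hodd : p % 2 = 1 := by
    rcases hp.eq_two_or_odd with h10 | h10
    · omega
    · exact h10
  have e2 : (p - 1) / 2 = p / 2 := by omega
  rw [ZMod.euler_criterion p (mul_ne_zero hn0 hd0), mul_pow, ← e2, h9.2, ← mul_pow, ← pow_two, ← pow_mul]
  have e3 : 2 * ((p - 1) / 2) = p - 1 := by omega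
  rw [e3]
  exact ZMod.pow_card_sub_one_eq_one hd0

open Classical in
/-- few groups of the family have a bad index -/
theorem few_bad (m a κ u D : ℕ) (hκ : 0 < κ) (q : ℕ) (hq : q.Prime) (hq2 : 2 < q) (T : Finset (Subgroup ℚˣ))
    (hqa : q ≡ a [MOD m]) (hD : D ∣ q - 1) (hlen : ((q - 1) / D).primeFactorsList.length ≤ 2)
    (hDm : ∀ p : ℕ, p.Prime → p ∣ D → p = 2 ∨ p ∣ m)
    (hκ' : ∀ p : ℕ, p.Prime → p ≠ 2 → p ∣ m → ¬ a ≡ 1 [MOD Nat.gcd m (p ^ (κ.factorization p + 1))])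
    (hWu : ∀ W ∈ T, W ≤ Qs q hq 0)
    (h2 : ∀ W ∈ T, (∃ w ∈ W, ¬ IsSquare ((((w : ℚ).num * (w : ℚ).den : ℤ)) : ZMod q)) ∨
      ¬ a ≡ 1 [MOD Nat.gcd m (2 ^ (κ.factorization 2 + 1))])
    (hfew : ∀ l : ℕ, l.Prime → l ∣ (q - 1) / D → (T.filter (fun W => W ≤ Qs q hq ((q - 1) / l))).card ≤ u - 1) :
    (T.filter (fun W => ¬ (img q W).index ∣ κ)).card ≤ 2 * (u - 1) := by
  have hgcd : ∀ l : ℕ, l ^ (κ.factorization l + 1) ∣ q - 1 → a ≡ 1 [MOD Nat.gcd m (l ^ (κ.factorization l + 1))] := by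
    intro l hl
    have h3 : q ≡ 1 [MOD l ^ (κ.factorization l + 1)] := ((Nat.modEq_iff_dvd' hq.one_lt.le).2 hl).symm
    exact (hqa.of_dvd (Nat.gcd_dvd_left _ _)).symm.trans (h3.of_dvd (Nat.gcd_dvd_right _ _))
  have hsub : T.filter (fun W => ¬ (img q W).index ∣ κ) ⊆
      ((q - 1) / D).primeFactors.biUnion (fun l => T.filter (fun W => W ≤ Qs q hq ((q - 1) / l))) := by
    intro W hW
    rw [mem_filter] at hW
    obtain ⟨hWT, hW2⟩ := hW
    have h3 : ∃ l : ℕ, l.Prime ∧ l ∣ (img q W).index ∧ l ^ (κ.factorization l + 1) ∣ q - 1 := by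
      by_contra hcon
      push Not at hcon
      exact hW2 (index_dvd' q hq W κ hκ (fun l hl hli => hcon l hl hli))
    obtain ⟨l, hl, hli, hlk⟩ := h3
    obtain ⟨h4, h5⟩ := img_index q hq W (hWu W hWT) l hl hli
    have h6 : l ∣ (q - 1) / D := by
      have h7 : l ∣ D * ((q - 1) / D) := by rwa [Nat.mul_div_cancel' hD]
      rcases (Nat.Prime.dvd_mul hl).1 h7 with h8 | h8
      · exfalso
        rcases Nat.decEq l 2 with hl2 | hl2
        · rcases hDm l hl h8 with h9 | h9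
          · exact hl2 h9
          · exact hκ' l hl hl2 h9 (hgcd l hlk)
        · subst hl2
          rcases h2 W hWT with h9 | h9
          · exact not_two_dvd q hq hq2 W (hWu W hWT) h9 hli
          · exact h9 (hgcd 2 hlk)
      · exact h8
    rw [mem_biUnion]
    refine ⟨l, ?_, mem_filter.2 ⟨hWT, h5⟩⟩
    rw [Nat.mem_primeFactors]
    refine ⟨hl, h6, ?_⟩
    have h7 : 0 < q - 1 := by omega
    exact (Nat.div_pos (Nat.le_of_dvd h7 hD) (Nat.pos_of_dvd_of_pos hD h7)).ne'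
  refine (card_le_card hsub).trans (card_biUnion_le.trans ((sum_le_card_nsmul _ _ (u - 1) ?_).trans ?_))
  · intro l hl
    rw [Nat.mem_primeFactors] at hl
    exact hfew l hl.1 hl.2.1
  · rw [smul_eq_mul]
    apply Nat.mul_le_mul_right
    refine le_trans ?_ hlen
    exact List.toFinset_card_le _

end Pool.Agent.T6.H2.PR
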